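import Mathlib

set_option autoImplicit false

/-!
# Level sets of the initial sums of the Legendre symbol: definitions and statements of the jobs
-/

open Finset

namespace Pool.Agent.K7.H22.LW

/-- `f` is a polynomial in `b 0, …, b (N - 1)` of degree at most `d`, the sum of the absolute values
of the coefficients is at most `C` -/
def IsPoly (N d : ℕ) (C : ℝ) (f : (ℕ → ℝ) → ℝ) : Prop :=
  ∃ L : List (ℝ × List ℕ), (∀ t ∈ L, t.2.length ≤ d ∧ ∀ u ∈ t.2, u < N) ∧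
    (L.map fun t => |t.1|).sum ≤ C ∧ ∀ b, f b = (L.map fun t => t.1 * (t.2.map b).prod).sum

/-- the signs `±1` given by `s`, continued by `1` -/
def sg {N : ℕ} (s : Fin N → Bool) (i : ℕ) : ℝ :=
  if h : i < N then (if s ⟨i, h⟩ then 1 else -1) else 1

/-- the average of `f` over all signs `b 0, …, b (N - 1)` -/
noncomputable def E (N : ℕ) (f : (ℕ → ℝ) → ℝ) : ℝ := (∑ s : Fin N → Bool, f (sg s)) / 2 ^ N

/-- the sum of the first `s` terms -/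
def S (b : ℕ → ℝ) (s : ℕ) : ℝ := ∑ i ∈ range s, b i

/-- JOB P: closure of `IsPoly` -/
def StP : Prop :=
  (∀ N d C c, |c| ≤ C → IsPoly N d C (fun _ => c)) ∧
  (∀ N d i, i < N → 1 ≤ d → IsPoly N d 1 (fun b => b i)) ∧
  (∀ N d C f N' d' C', IsPoly N d C f → N ≤ N' → d ≤ d' → C ≤ C' → IsPoly N' d' C' f) ∧
  (∀ N d C C' f f', IsPoly N d C f → IsPoly N d C' f' → IsPoly N d (C + C') (fun b => f b + f' b)) ∧
  (∀ N d d' C C' f f', IsPoly N d C f → IsPoly N d' C' f' →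
    IsPoly N (d + d') (C * C') (fun b => f b * f' b)) ∧
  (∀ N d C f k, IsPoly N d C f → IsPoly (k + N) d C (fun b => f (fun i => b (k + i)))) ∧
  (∀ N d C f M g, 0 ≤ C → IsPoly N d C f → N ≤ g →
    IsPoly (M * g) (M * d) (C ^ M) (fun b => ∏ j ∈ range M, f (fun i => b (j * g + i))))

/-- JOB T (assume `StP`): the Weil bound -/
def StT : Prop :=
  ∀ (p : ℕ) [Fact p.Prime], p ≠ 2 → ∀ (N d : ℕ) (C : ℝ) (f : (ℕ → ℝ) → ℝ), N ≤ p →
    IsPoly N d C f →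
      |∑ x : ZMod p, f (fun j => (quadraticChar (ZMod p) (x + (j : ℕ)) : ℝ)) - p * E N f| ≤
        C * d * (2 * Real.sqrt p)

/-- JOB I: independence -/
def StI : Prop :=
  ∀ (g M : ℕ) (f : (ℕ → ℝ) → ℝ), (∀ b b' : ℕ → ℝ, (∀ i < g, b i = b' i) → f b = f b') →
    E (M * g) (fun b => ∏ j ∈ range M, f (fun i => b (j * g + i))) = (E g f) ^ M

/-- first majorant -/
noncomputable def f₁ (g : ℕ) (b : ℕ → ℝ) : ℝ := 1 + 9 / 4 * (1 - S b g ^ 2 / (3 * g)) ^ 2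

/-- JOB A (assume `StP`, `StE`): the first majorant -/
def StA : Prop :=
  ∀ g : ℕ, 4 ≤ g → IsPoly g 4 ((g : ℝ) ^ 2) (f₁ g) ∧ E g (f₁ g) ≤ 5 / 2 ∧ (∀ b, 1 ≤ f₁ g b) ∧
    (∀ b, S b g ^ 2 ≤ g / 6 → 3 ≤ f₁ g b)

/-- JOB E: elementary facts on averages and the second and fourth moment -/
def StE : Prop :=
  (∀ N c f f', E N (fun b => c * f b + f' b) = c * E N f + E N f') ∧
  (∀ N c, E N (fun _ => c) = c) ∧
  (∀ N f f', (∀ b, f b ≤ f' b) → E N f ≤ E N f') ∧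
  (∀ (k g : ℕ) (f : (ℕ → ℝ) → ℝ), (∀ b b' : ℕ → ℝ, (∀ i < g, b i = b' i) → f b = f b') →
    E (k + g) (fun b => f (fun i => b (k + i))) = E g f ∧ E (g + k) f = E g f) ∧
  (∀ g : ℕ, E g (fun b => S b g ^ 2) = g) ∧
  (∀ g : ℕ, E g (fun b => S b g ^ 4) ≤ 3 * (g : ℝ) ^ 2)

/-- a polynomial which is larger than the fourth powers of the first `2 ^ n` partial sums -/
noncomputable def Q : ℕ → (ℕ → ℝ) → ℝ
  | 0, b => b 0 ^ 4
  | n + 1, b => 216 * S b (2 ^ n) ^ 4 + 216 / 125 * (Q n b + Q n (fun i => b (2 ^ n + i)))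

/-- second majorant -/
noncomputable def f₂ (n : ℕ) (b : ℕ → ℝ) : ℝ := 1 + Q n b / (2 ^ 11 * 4 ^ n)

/-- JOB B (assume `StP`, `StE`): the second majorant -/
def StB : Prop :=
  ∀ n : ℕ, IsPoly (2 ^ n) 4 (2 * 4 ^ n) (f₂ n) ∧ E (2 ^ n) (f₂ n) ≤ 2 ∧ (∀ b, 1 ≤ f₂ n b) ∧
    (∀ (b : ℕ → ℝ) (s : ℕ), s ≤ 2 ^ n → 2 ^ 62 * 4 ^ n < S b s ^ 4 → 2 ^ 51 ≤ f₂ n b)

open Classical in
/-- JOB C (assume the last two clauses of `StA`, `StB`): windows which meet a level too often -/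
def StC : Prop :=
  ∀ (n m : ℕ) (F : ℕ → ℝ) (b : ℕ → ℝ) (h : ℝ), (∀ i, F (i + 1) = F i + b i) →
    98 * m < ((range (100 * m)).filter fun j => ∃ s ≤ 2 ^ n, F (j * 2 ^ (n + 36) + s) = h).card →
      (3 : ℝ) ^ (90 * m) ≤
          ∏ j ∈ range (100 * m), f₁ (2 ^ (n + 36)) (fun i => b (j * 2 ^ (n + 36) + i)) ∨
        (2 : ℝ) ^ (102 * m) ≤ ∏ j ∈ range (100 * m), f₂ n (fun i => b (j * 2 ^ (n + 36) + i))

/-! ## The walk -/

section walk

variable (p : ℕ) [Fact p.Prime]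

/-- the initial sums `Ψ(a, t) = χ(a) + χ(a + 1) + ⋯ + χ(a + t)` -/
def Psi (a : ZMod p) (t : ℕ) : ℤ := ∑ j ∈ range (t + 1), quadraticChar (ZMod p) (a + (j : ℕ))

/-- `Ψ(0, x)` as a function of the residue class `x` -/
def FF (x : ZMod p) : ℤ := Psi p 0 x.val

open Classical in
/-- the residue classes `x` such that `Ψ(0, ·)` takes the value `h` in `x, …, x + 2 ^ n` -/
noncomputable def Nr (h : ℤ) (n : ℕ) : Finset (ZMod p) :=
  univ.filter fun x => ∃ s ≤ 2 ^ n, FF p (x + (s : ℕ)) = h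

end walk

/-- JOB W: the walk is well defined modulo `p` -/
def StW : Prop :=
  ∀ (p : ℕ) [Fact p.Prime], p ≠ 2 →
    (∀ x : ZMod p, FF p (x + 1) = FF p x + quadraticChar (ZMod p) (x + 1)) ∧
    (∀ (a : ZMod p) (t : ℕ), Psi p a t = FF p (a + (t : ℕ)) - FF p (a - 1))

/-- JOB R (assume all of the above): one step of the recursion; `k` is the ratio of the scales -/
def StR : Prop :=
  ∀ (p : ℕ) [Fact p.Prime], p ≠ 2 → ∀ (h : ℤ) (n m e : ℕ), 1 ≤ m → 100 * m ≤ 2 ^ e →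
    2 ^ (500 * m * (n + 36)) ≤ p →
      ((Nr p h n).card : ℝ) ≤ 49 / 50 * (Nr p h (n + (36 + e))).card + 4 * (1 / 2) ^ m * p

/-- JOB J (assume `StR`): iteration -/
def StJ : Prop :=
  ∀ (p : ℕ) [Fact p.Prime], p ≠ 2 → ∀ (h : ℤ) (m e J : ℕ), 1 ≤ m → 100 * m ≤ 2 ^ e →
    2 ^ (500 * m * (36 + J * (36 + e))) ≤ p →
      ((univ.filter fun x : ZMod p => FF p x = h).card : ℝ) ≤
        ((49 / 50) ^ J + 200 * (1 / 2) ^ m) * p

/-- JOB L (assume `StW`): the lower bound -/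
def StL : Prop :=
  ∀ (p : ℕ) [Fact p.Prime], p ≠ 2 → ∃ h : ℤ,
    Real.sqrt p / 3 ≤ ((univ.filter fun x : ZMod p => FF p x = h).card : ℝ)

/-- JOB Z (assume `StJ`, `StW`): the theorem -/
def StZ : Prop :=
  ∃ c : ℝ, 0 < c ∧ ∃ p₀ : ℕ, ∀ (p : ℕ) [Fact p.Prime], p₀ ≤ p → ∀ (a : ZMod p) (h : ℤ),
    (((range p).filter fun t => Psi p a t = h).card : ℝ) ≤
      p * Real.exp (-c * Real.sqrt (Real.log p) / Real.log (Real.log p))

end Pool.Agent.K7.H22.LW
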