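import Pool.Agent.K7.H22.LW.R
import Pool.Agent.K7.H55.LW.P
import Pool.Agent.K7.H55.LW.I
import Pool.Agent.K7.H55.LW.B
import Pool.Agent.K7.H59.LW.E
import Pool.Agent.K7.H59.LW.J
import Pool.Agent.K7.H59.LW.W
import Pool.Agent.K7.H73.LW.A
import Pool.Agent.K7.H74.LW.T
import Pool.Agent.K7.H11.LW.C
import Pool.Agent.K7.H80.LW.L
import Pool.Agent.K7.H16.LW.Z

/-!
# Level sets of the initial sums of the Legendre symbol: assembly
-/

set_option autoImplicit false

open Finset

namespace Pool.Agent.K7.H22.LW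

theorem stE : StE := Pool.Agent.K7.H59.LW.e
theorem stP : StP := Pool.Agent.K7.H55.LW.p
theorem stA : StA := a stP stE
theorem stB : StB := Pool.Agent.K7.H55.LW.b stE
theorem stC : StC := Pool.Agent.K7.H11.LW.stC stA stB
theorem stW : StW := Pool.Agent.K7.H59.LW.w
theorem stR : StR := r stP t_holds Pool.Agent.K7.H55.LW.i stE stA stB stC stW
theorem stJ : StJ := Pool.Agent.K7.H59.LW.j stR
theorem stZ : StZ := Pool.Agent.K7.H16.LW.z stJ stW
theorem stL : StL := Pool.Agent.K7.H80.LW.l stW

/-- the level sets of `Psi p a` are level sets of `FF p` -/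
theorem card_eq (p : ℕ) [hp : Fact p.Prime] (h2 : p ≠ 2) (a : ZMod p) (h : ℤ) :
    ((range p).filter fun t => Psi p a t = h).card =
      (univ.filter fun x : ZMod p => FF p x = h + FF p (a - 1)).card := by
  refine le_antisymm (Pool.Agent.K7.H16.LW.card_psi stW p h2 a h) ?_
  apply card_le_card_of_injOn (fun x : ZMod p => (x - a).val)
  · intro x hx
    have hx' := (mem_filter.1 hx).2
    have h3 := (stW p h2).2 a (x - a).val
    refine mem_coe.2 (mem_filter.2 ⟨mem_range.2 (ZMod.val_lt _), ?_⟩)
    rw [h3, ZMod.natCast_zmod_val, add_sub_cancel, hx']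
    ring
  · intro x _ y _ hxy
    have := ZMod.val_injective p hxy
    exact sub_left_injective this

theorem card_zero (p : ℕ) [hp : Fact p.Prime] (h : ℤ) :
    (univ.filter fun x : ZMod p => FF p x = h).card =
      ((range p).filter fun t => Psi p 0 t = h).card := by
  refine card_bij (fun x _ => x.val) ?_ ?_ ?_
  · intro x hx
    exact mem_filter.2 ⟨mem_range.2 (ZMod.val_lt x), (mem_filter.1 hx).2⟩
  · intro x _ y _ hxy
    exact ZMod.val_injective p hxy
  · intro t ht
    obtain ⟨h1, h2⟩ := mem_filter.1 ht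
    have h3 : ((t : ZMod p)).val = t := ZMod.val_cast_of_lt (mem_range.1 h1)
    refine ⟨(t : ZMod p), mem_filter.2 ⟨mem_univ _, ?_⟩, h3⟩
    show Psi p 0 ((t : ZMod p)).val = h
    rw [h3]
    exact h2

/-- the questions Q1 and Q2 are equivalent, prime by prime -/
theorem equiv (p : ℕ) [hp : Fact p.Prime] (h2 : p ≠ 2) (B : ℝ) :
    (∀ a : ZMod p, (((range p).filter fun t => Psi p a t = 0).card : ℝ) ≤ B) ↔
      ∀ h : ℤ, (((range p).filter fun t => Psi p 0 t = h).card : ℝ) ≤ B := by
  constructor
  · intro H h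
    rw [← card_zero]
    rcases (univ.filter fun x : ZMod p => FF p x = h).eq_empty_or_nonempty with h0 | ⟨x, hx⟩
    · rw [h0, card_empty, Nat.cast_zero]
      exact (Nat.cast_nonneg _).trans (H 0)
    · have hx' := (mem_filter.1 hx).2
      have := H (x + 1)
      rw [card_eq p h2, add_sub_cancel_right, hx', zero_add] at this
      exact this
  · intro H a
    rw [card_eq p h2, card_zero]
    exact H _

end Pool.Agent.K7.H22.LW
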