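import Pool.Agent.K7.H22.LW.R0

/-!
# Job R: one step of the recursion
-/

set_option autoImplicit false

open Finset

namespace Pool.Agent.K7.H22.LW

lemma fin1 {a A X T S₁ S₂ M m : ℝ} (hm : 0 < m) (hM : M = 100 * m)
    (h1 : M * a ≤ 98 * m * A + M * X) (h2 : X ≤ S₁ + S₂) (h3 : S₁ ≤ 2 * T) (h4 : S₂ ≤ 2 * T) :
    a ≤ 49 / 50 * A + 4 * T := by
  have h5 : (100 * m) * a ≤ (100 * m) * (49 / 50 * A + X) := by
    rw [hM] at h1
    linarith
  have h6 := le_of_mul_le_mul_left h5 (by positivity)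
  linarith

lemma fin2 {c P Q R T S : ℝ} (hc0 : 0 ≤ c) (hc : c ≤ 1) (hR : 0 ≤ R) (h1 : S - P ≤ R) (h2 : P ≤ Q)
    (h3 : c * Q ≤ T) (h4 : R ≤ T) : c * S ≤ 2 * T := by
  have e1 : S ≤ Q + R := by linarith
  have e2 : c * S ≤ c * (Q + R) := mul_le_mul_of_nonneg_left e1 hc0
  have e3 : c * R ≤ R := mul_le_of_le_one_left hR hc
  rw [mul_add] at e2
  linarith

theorem r (hP : StP) (hT : StT) (hI : StI) (hE : StE) (hA : StA) (hB : StB) (hC : StC) (hW : StW) :
    StR := by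
  classical
  intro p _ hp2 h n m e hm he hpow
  have hpp : p.Prime := Fact.out
  obtain ⟨-, -, -, -, -, -, hP7⟩ := hP
  obtain ⟨-, hE2, hE3, hE4, -, -⟩ := hE
  have k4 : (0 : ℝ) ≤ 2 * 4 ^ n := by clear hpow; positivity
  have c1 : (0 : ℝ) ≤ (1 / 3) ^ (90 * m) := pow_nonneg (by norm_num) _
  have c2 : (0 : ℝ) ≤ (1 / 2) ^ (102 * m) := pow_nonneg (by norm_num) _
  have c3 : (1 / 3 : ℝ) ^ (90 * m) ≤ 1 := pow_le_one₀ (by norm_num) (by norm_num)
  have c4 : (1 / 2 : ℝ) ^ (102 * m) ≤ 1 := pow_le_one₀ (by norm_num) (by norm_num)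
  obtain ⟨g, hg⟩ : ∃ g : ℕ, g = 2 ^ (n + 36) := ⟨_, rfl⟩
  obtain ⟨M, hM⟩ : ∃ M : ℕ, M = 100 * m := ⟨_, rfl⟩
  have hC' := hC n m
  rw [← hg, ← hM] at hC'
  have hKg : 2 ^ n ≤ g := by
    rw [hg]
    exact Nat.pow_le_pow_right (by norm_num) (by omega)
  have hg4 : 4 ≤ g := by
    rw [hg, show (4 : ℕ) = 2 ^ 2 from rfl]
    exact Nat.pow_le_pow_right (by norm_num) (by omega)
  obtain ⟨A1, A2, A3, -⟩ := hA g hg4
  obtain ⟨B1, B2, B3, -⟩ := hB n
  obtain ⟨hW1, -⟩ := hW p hp2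
  have hppos : (0 : ℝ) < p := by exact_mod_cast hpp.pos
  obtain ⟨hMg, hnums⟩ := nums hm hg hM hpow
  have hk : (j : ℕ) → j < M → j * g + g ≤ 2 ^ (n + (36 + e)) := by
    intro j hj
    have h1 : (j + 1) * g ≤ 2 ^ e * g := Nat.mul_le_mul_right _ (by omega)
    have h2 : 2 ^ e * g = 2 ^ (n + (36 + e)) := by
      rw [hg, ← pow_add]
      congr 1
      omega
    have h3 : j * g + g = (j + 1) * g := by ring
    omega
  clear hpow
  -- the exceptional set
  let U : ZMod p → ℕ := fun x => ((range M).filter fun j => x + ((j * g : ℕ) : ZMod p) ∈ Nr p h n).card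
  let X : Finset (ZMod p) := univ.filter fun x => 98 * m < U x
  have hUM : ∀ x, U x ≤ M := fun x => (card_filter_le _ _).trans (by rw [card_range])
  have hsum : ∑ x, U x = M * (Nr p h n).card := by
    have h1 : ∀ x, U x = ∑ j ∈ range M, if x + ((j * g : ℕ) : ZMod p) ∈ Nr p h n then 1 else 0 := by
      intro x
      rw [← card_filter]
    simp_rw [h1]
    rw [sum_comm]
    have h2 : ∀ j ∈ range M, (∑ x : ZMod p, if x + ((j * g : ℕ) : ZMod p) ∈ Nr p h n then 1 else 0) =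
        (Nr p h n).card := by
      intro j _
      have h3 : (∑ x : ZMod p, if x + ((j * g : ℕ) : ZMod p) ∈ Nr p h n then 1 else 0) =
          ∑ y : ZMod p, if y ∈ Nr p h n then 1 else 0 :=
        Equiv.sum_comp (Equiv.addRight ((j * g : ℕ) : ZMod p))
          (fun y => if y ∈ Nr p h n then (1 : ℕ) else 0)
      rw [h3, ← card_filter]
      congr 1
      ext y
      simp
    rw [sum_congr rfl h2, sum_const, card_range, smul_eq_mul]
  have hmem : ∀ x, 1 ≤ U x → x ∈ Nr p h (n + (36 + e)) := by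
    intro x hx
    obtain ⟨j, hj⟩ := card_pos.1 hx
    rw [mem_filter, mem_range] at hj
    obtain ⟨hjM, hj2⟩ := hj
    rw [Nr, mem_filter] at hj2 ⊢
    obtain ⟨-, s, hs, hFs⟩ := hj2
    refine ⟨mem_univ _, j * g + s, ?_, ?_⟩
    · have h1 := hk j hjM
      omega
    · rw [← hFs]
      congr 1
      push_cast
      ring
  have hle : ∀ x, U x ≤ (if x ∈ Nr p h (n + (36 + e)) then 98 * m else 0) + (if x ∈ X then M else 0) := by
    intro x
    by_cases hX : x ∈ X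
    · rw [if_pos hX]
      exact (hUM x).trans (Nat.le_add_left _ _)
    · rw [if_neg hX, add_zero]
      have h1 : U x ≤ 98 * m := by
        by_contra hcon
        exact hX (mem_filter.2 ⟨mem_univ _, not_le.1 hcon⟩)
      split_ifs with h2
      · exact h1
      · by_contra hcon
        exact h2 (hmem x (by omega))
  have hmain : M * (Nr p h n).card ≤ 98 * m * (Nr p h (n + (36 + e))).card + M * X.card := by
    rw [← hsum]
    refine (sum_le_sum fun x _ => hle x).trans ?_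
    rw [sum_add_distrib]
    apply le_of_eq
    congr 1
    · rw [← sum_filter, sum_const, smul_eq_mul, mul_comm]
      congr 2
      ext y; simp
    · rw [← sum_filter, sum_const, smul_eq_mul, mul_comm]
      congr 2
      ext y; simp
  -- the two polynomials
  let P₁ : (ℕ → ℝ) → ℝ := fun b => ∏ j ∈ range M, f₁ g (fun i => b (j * g + i))
  let P₂ : (ℕ → ℝ) → ℝ := fun b => ∏ j ∈ range M, f₂ n (fun i => b (j * g + i))
  have hP₁ : IsPoly (M * g) (M * 4) (((g : ℝ) ^ 2) ^ M) P₁ :=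
    hP7 g 4 _ (f₁ g) M g (pow_nonneg (Nat.cast_nonneg g) 2) A1 le_rfl
  have hP₂ : IsPoly (M * g) (M * 4) ((2 * 4 ^ n : ℝ) ^ M) P₂ :=
    hP7 (2 ^ n) 4 _ (f₂ n) M g k4 B1 hKg
  have hE1 : E (M * g) P₁ ≤ (5 / 2) ^ M := by
    have h1 : E (M * g) P₁ = (E g (f₁ g)) ^ M := hI g M (f₁ g) fun b b' hb => A1.congr hb
    rw [h1]
    have h0 : 0 ≤ E g (f₁ g) := by
      have := hE3 g (fun _ => 1) (f₁ g) A3
      rw [hE2] at this
      linarith
    exact pow_le_pow_left₀ h0 A2 M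
  have hE2' : E (M * g) P₂ ≤ 2 ^ M := by
    have h1 : E (M * g) P₂ = (E g (f₂ n)) ^ M :=
      hI g M (f₂ n) fun b b' hb => B1.congr fun i hi => hb i (by omega)
    have h2 : E g (f₂ n) = E (2 ^ n) (f₂ n) := by
      have h3 := (hE4 (g - 2 ^ n) (2 ^ n) (f₂ n) fun b b' hb => B1.congr hb).2
      rwa [show 2 ^ n + (g - 2 ^ n) = g by omega] at h3
    rw [h1, h2]
    have h0 : 0 ≤ E (2 ^ n) (f₂ n) := by
      have := hE3 (2 ^ n) (fun _ => 1) (f₂ n) B3
      rw [hE2] at this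
      linarith
    exact pow_le_pow_left₀ h0 B2 M
  -- sums over the residue classes
  have hshift : ∀ f : (ℕ → ℝ) → ℝ,
      ∑ x : ZMod p, f (fun j => (quadraticChar (ZMod p) (x + 1 + (j : ℕ)) : ℝ)) =
        ∑ x : ZMod p, f (fun j => (quadraticChar (ZMod p) (x + (j : ℕ)) : ℝ)) := fun f =>
    Fintype.sum_equiv (Equiv.addRight (1 : ZMod p)) _ _ fun x => rfl
  have hS₁ := (abs_le.1 (hT p hp2 (M * g) (M * 4) _ P₁ hMg hP₁)).2
  have hS₂ := (abs_le.1 (hT p hp2 (M * g) (M * 4) _ P₂ hMg hP₂)).2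
  rw [← hshift] at hS₁ hS₂
  -- the exceptional set
  have hpos₁ : ∀ b, 0 ≤ P₁ b := fun b => prod_nonneg fun j _ => by linarith [A3 (fun i => b (j * g + i))]
  have hpos₂ : ∀ b, 0 ≤ P₂ b := fun b => prod_nonneg fun j _ => by linarith [B3 (fun i => b (j * g + i))]
  have hX : ∀ x ∈ X, (1 : ℝ) ≤
      (1 / 3) ^ (90 * m) * P₁ (fun j => (quadraticChar (ZMod p) (x + 1 + (j : ℕ)) : ℝ)) +
      (1 / 2) ^ (102 * m) * P₂ (fun j => (quadraticChar (ZMod p) (x + 1 + (j : ℕ)) : ℝ)) := by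
    intro x hx
    have hx2 : 98 * m < U x := (mem_filter.1 hx).2
    have hstep : ∀ i : ℕ, ((FF p (x + ((i + 1 : ℕ) : ZMod p)) : ℤ) : ℝ) =
        ((FF p (x + (i : ZMod p)) : ℤ) : ℝ) + (quadraticChar (ZMod p) (x + 1 + (i : ℕ)) : ℝ) := by
      intro i
      have h1 : x + ((i + 1 : ℕ) : ZMod p) = (x + (i : ZMod p)) + 1 := by push_cast; ring
      have h2 : x + 1 + (i : ZMod p) = (x + (i : ZMod p)) + 1 := by ring
      rw [h1, h2, hW1]
      push_cast
      ring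
    have hcard : 98 * m < ((range M).filter fun j => ∃ s ≤ 2 ^ n,
        (fun i : ℕ => ((FF p (x + (i : ZMod p)) : ℤ) : ℝ)) (j * g + s) = (h : ℝ)).card := by
      refine lt_of_lt_of_le hx2 (card_le_card ?_)
      intro j hj
      rw [mem_filter] at hj ⊢
      refine ⟨hj.1, ?_⟩
      have h3 := hj.2
      rw [Nr, mem_filter] at h3
      obtain ⟨-, s, hs, hFs⟩ := h3
      refine ⟨s, hs, ?_⟩
      show ((FF p (x + ((j * g + s : ℕ) : ZMod p)) : ℤ) : ℝ) = (h : ℝ)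
      rw [← hFs]
      congr 2
      push_cast
      ring
    rcases hC' (fun i : ℕ => ((FF p (x + (i : ZMod p)) : ℤ) : ℝ))
      (fun j : ℕ => (quadraticChar (ZMod p) (x + 1 + (j : ℕ)) : ℝ)) (h : ℝ) hstep
      (by convert hcard) with hc | hc
    · have h1 : (1 : ℝ) ≤ (1 / 3) ^ (90 * m) *
          P₁ (fun j => (quadraticChar (ZMod p) (x + 1 + (j : ℕ)) : ℝ)) := by
        have h2 : (1 / 3 : ℝ) ^ (90 * m) * 3 ^ (90 * m) = 1 := by rw [← mul_pow]; norm_num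
        exact h2.symm.le.trans (mul_le_mul_of_nonneg_left hc c1)
      have h3 := mul_nonneg c2
        (hpos₂ (fun j => (quadraticChar (ZMod p) (x + 1 + (j : ℕ)) : ℝ)))
      linarith
    · have h1 : (1 : ℝ) ≤ (1 / 2) ^ (102 * m) *
          P₂ (fun j => (quadraticChar (ZMod p) (x + 1 + (j : ℕ)) : ℝ)) := by
        have h2 : (1 / 2 : ℝ) ^ (102 * m) * 2 ^ (102 * m) = 1 := by rw [← mul_pow]; norm_num
        exact h2.symm.le.trans (mul_le_mul_of_nonneg_left hc c2)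
      have h3 := mul_nonneg c1
        (hpos₁ (fun j => (quadraticChar (ZMod p) (x + 1 + (j : ℕ)) : ℝ)))
      linarith
  have hXcard : (X.card : ℝ) ≤
      (1 / 3) ^ (90 * m) * ∑ x : ZMod p, P₁ (fun j => (quadraticChar (ZMod p) (x + 1 + (j : ℕ)) : ℝ)) +
      (1 / 2) ^ (102 * m) * ∑ x : ZMod p, P₂ (fun j => (quadraticChar (ZMod p) (x + 1 + (j : ℕ)) : ℝ)) := by
    have h1 : (X.card : ℝ) = ∑ x ∈ X, (1 : ℝ) := by simp
    rw [h1, mul_sum, mul_sum, ← sum_add_distrib]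
    refine (sum_le_sum hX).trans (sum_le_sum_of_subset_of_nonneg (subset_univ _) fun x _ _ => ?_)
    have a1 := mul_nonneg c2
        (hpos₂ (fun j => (quadraticChar (ZMod p) (x + 1 + (j : ℕ)) : ℝ)))
    have a2 := mul_nonneg c1
        (hpos₁ (fun j => (quadraticChar (ZMod p) (x + 1 + (j : ℕ)) : ℝ)))
    linarith
  -- end
  obtain ⟨e1, e2, n1, n2⟩ := hnums
  have hsq : 0 ≤ 2 * Real.sqrt (p : ℝ) := mul_nonneg zero_le_two (Real.sqrt_nonneg _)
  have r1 : 0 ≤ ((g : ℝ) ^ 2) ^ M * ((M * 4 : ℕ) : ℝ) * (2 * Real.sqrt p) :=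
    mul_nonneg (mul_nonneg (pow_nonneg (pow_nonneg (Nat.cast_nonneg g) 2) M) (Nat.cast_nonneg _)) hsq
  have r2 : 0 ≤ ((2 * 4 ^ n : ℝ) ^ M) * ((M * 4 : ℕ) : ℝ) * (2 * Real.sqrt p) :=
    mul_nonneg (mul_nonneg (pow_nonneg k4 M) (Nat.cast_nonneg _)) hsq
  have s1 := fin2 c1 c3 r1 hS₁ (mul_le_mul_of_nonneg_left hE1 hppos.le) n1 e1
  have s2 := fin2 c2 c4 r2 hS₂ (mul_le_mul_of_nonneg_left hE2' hppos.le) n2 e2
  have hm0 : (0 : ℝ) < m := by exact_mod_cast hm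
  have hmain' : (M : ℝ) * (Nr p h n).card ≤
      98 * m * (Nr p h (n + (36 + e))).card + M * X.card := by
    exact_mod_cast hmain
  have hfin := fin1 hm0 (by rw [hM]; push_cast; rfl) hmain' hXcard s1 s2
  rw [← mul_assoc] at hfin
  exact hfin

end Pool.Agent.K7.H22.LW
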