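import Pool.Agent.K7.H22.LW.Stm

/-!
# Job R: one step of the recursion
-/

set_option autoImplicit false

open Finset

namespace Pool.Agent.K7.H22.LW

lemma IsPoly.congr {N d : ℕ} {C : ℝ} {f : (ℕ → ℝ) → ℝ} (hf : IsPoly N d C f) {b b' : ℕ → ℝ}
    (h : ∀ i < N, b i = b' i) : f b = f b' := by
  obtain ⟨L, h1, -, h3⟩ := hf
  rw [h3, h3]
  congr 1
  refine List.map_congr_left fun t ht => ?_
  congr 2
  exact List.map_congr_left fun u hu => h u ((h1 t ht).2 u hu)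

lemma exp1 (n m : ℕ) (hm : 1 ≤ m) : 7 + m + (n + 36) ≤ 500 * m * (n + 36) := by
  have h1 : n + 36 ≤ m * (n + 36) := Nat.le_mul_of_pos_left _ hm
  have h2 : m ≤ m * (n + 36) := Nat.le_mul_of_pos_right _ (by omega)
  rw [mul_assoc]
  omega

lemma exp2 (n m : ℕ) (hm : 1 ≤ m) :
    2 * (n + 36) * (100 * m) + 10 + m + m ≤ 250 * m * (n + 36) := by
  have h1 : n + 36 ≤ m * (n + 36) := Nat.le_mul_of_pos_left _ hm
  have h2 : m * 36 ≤ m * (n + 36) := Nat.mul_le_mul_left _ (by omega)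
  have h3 : 2 * (n + 36) * (100 * m) = 200 * (m * (n + 36)) := by ring
  rw [h3, mul_assoc]
  omega

lemma exp4 (n m : ℕ) : 250 * m * (n + 36) * 2 = 500 * m * (n + 36) := by ring

lemma aux2 {x y D t : ℝ} (hD : 0 ≤ D) (ht : 0 ≤ t) (h : x ≤ y) : x * D * t ≤ y * D * t :=
  mul_le_mul_of_nonneg_right (mul_le_mul_of_nonneg_right h hD) ht

lemma aux3 (n m : ℕ) :
    ((2 : ℝ) ^ (2 * (n + 36))) ^ (100 * m) * (2 ^ 10 * 2 ^ m) * 2 ^ m =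
      2 ^ (2 * (n + 36) * (100 * m) + 10 + m + m) := by
  rw [← pow_mul, pow_add, pow_add, pow_add]
  ring

lemma aux4 (n : ℕ) : (2 * 4 ^ n : ℝ) ≤ 2 ^ (2 * (n + 36)) := by
  calc (2 * 4 ^ n : ℝ) = 2 ^ (1 + 2 * n) := by rw [pow_add, pow_mul]; norm_num
    _ ≤ 2 ^ (2 * (n + 36)) := pow_le_pow_right₀ (by norm_num) (by omega)

lemma aux {a b d p : ℝ} (h : a * b ≤ d) (hp : 0 ≤ p) : a * (p * b) ≤ d * p := by
  calc a * (p * b) = (a * b) * p := by ring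
    _ ≤ d * p := mul_le_mul_of_nonneg_right h hp

/-- the numerical estimate -/
lemma num {p : ℝ} (hp : 0 ≤ p) {n m : ℕ} (hm : 1 ≤ m) {q : ℝ}
    (hq : (2 : ℝ) ^ (250 * m * (n + 36)) = q) (h : q ^ 2 ≤ p) :
    ((2 : ℝ) ^ (2 * (n + 36))) ^ (100 * m) * ((100 * m * 4 : ℕ) : ℝ) * (2 * Real.sqrt p) ≤
      (1 / 2) ^ m * p := by
  have hq0 : 0 ≤ q := by rw [← hq]; positivity
  have hs : q ≤ Real.sqrt p := Real.le_sqrt_of_sq_le h
  have hm2 : (m : ℝ) ≤ 2 ^ m := by exact_mod_cast (Nat.lt_two_pow_self (n := m)).le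
  have e1 : ((100 * m * 4 : ℕ) : ℝ) * 2 ≤ 2 ^ 10 * 2 ^ m := by
    push_cast
    have : (0 : ℝ) < 2 ^ m := by positivity
    clear h hq hs
    linarith
  have h1 : ((2 : ℝ) ^ (2 * (n + 36))) ^ (100 * m) * (2 ^ 10 * 2 ^ m) * 2 ^ m ≤ q := by
    rw [← hq, aux3]
    exact pow_le_pow_right₀ (by norm_num) (exp2 n m hm)
  obtain ⟨B, hB⟩ : ∃ B : ℝ, B = ((2 : ℝ) ^ (2 * (n + 36))) ^ (100 * m) := ⟨_, rfl⟩
  rw [← hB] at h1 ⊢
  have hB0 : 0 ≤ B := by rw [hB]; positivity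
  clear hB hq
  obtain ⟨D, hD⟩ : ∃ D : ℝ, D = ((100 * m * 4 : ℕ) : ℝ) := ⟨_, rfl⟩
  rw [← hD] at e1 ⊢
  have hD0 : 0 ≤ D := by rw [hD]; positivity
  clear hD hm2
  have h3 : (1 / 2 : ℝ) ^ m * 2 ^ m = 1 := by
    rw [← mul_pow]; norm_num
  obtain ⟨t, ht⟩ : ∃ t : ℝ, t = (2 : ℝ) ^ m := ⟨_, rfl⟩
  obtain ⟨u, hu⟩ : ∃ u : ℝ, u = (1 / 2 : ℝ) ^ m := ⟨_, rfl⟩
  rw [← ht] at h1 e1 h3
  rw [← hu] at h3 ⊢
  have ht0 : 0 ≤ t := by rw [ht]; positivity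
  have hu0 : 0 ≤ u := by rw [hu]; positivity
  clear ht hu
  have hs0 : 0 ≤ Real.sqrt p := Real.sqrt_nonneg p
  have h4 : B * (D * 2) * t ≤ Real.sqrt p :=
    ((mul_le_mul_of_nonneg_right (mul_le_mul_of_nonneg_left e1 hB0) ht0).trans h1).trans hs
  calc B * D * (2 * Real.sqrt p) = (u * t) * (B * D * (2 * Real.sqrt p)) := by rw [h3, one_mul]
    _ = u * ((B * (D * 2) * t) * Real.sqrt p) := by ring
    _ ≤ u * (Real.sqrt p * Real.sqrt p) :=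
        mul_le_mul_of_nonneg_left (mul_le_mul_of_nonneg_right h4 hs0) hu0
    _ = _ := by rw [Real.mul_self_sqrt hp]

/-- all numerical estimates -/
lemma nums {p n m g M : ℕ} (hm : 1 ≤ m) (hg : g = 2 ^ (n + 36)) (hM : M = 100 * m)
    (hpow : 2 ^ (500 * m * (n + 36)) ≤ p) :
    M * g ≤ p ∧
    ((g : ℝ) ^ 2) ^ M * ((M * 4 : ℕ) : ℝ) * (2 * Real.sqrt p) ≤ (1 / 2) ^ m * p ∧
    ((2 * 4 ^ n : ℝ) ^ M) * ((M * 4 : ℕ) : ℝ) * (2 * Real.sqrt p) ≤ (1 / 2) ^ m * p ∧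
    (1 / 3 : ℝ) ^ (90 * m) * (p * (5 / 2) ^ M) ≤ (1 / 2) ^ m * p ∧
    (1 / 2 : ℝ) ^ (102 * m) * (p * 2 ^ M) ≤ (1 / 2) ^ m * p := by
  have hp0 : (0 : ℝ) ≤ p := Nat.cast_nonneg p
  have hnum := num hp0 hm (n := n) (q := (2 : ℝ) ^ (250 * m * (n + 36))) rfl (by
    have e : ((2 : ℝ) ^ (250 * m * (n + 36))) ^ 2 = 2 ^ (500 * m * (n + 36)) := by
      rw [← pow_mul, exp4]
    rw [e]
    exact_mod_cast hpow)
  refine ⟨?_, ?_, ?_, ?_, ?_⟩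
  · have q1 : M ≤ 2 ^ (7 + m) := by
      rw [hM, pow_add]
      have : m < 2 ^ m := Nat.lt_two_pow_self
      clear hpow hnum
      omega
    have q2 : M * g ≤ 2 ^ (7 + m) * g := Nat.mul_le_mul_right _ q1
    have q3 : 2 ^ (7 + m) * g = 2 ^ (7 + m + (n + 36)) := by rw [hg, ← pow_add]
    have q5 : 2 ^ (7 + m + (n + 36)) ≤ 2 ^ (500 * m * (n + 36)) :=
      Nat.pow_le_pow_right (by norm_num) (exp1 n m hm)
    exact (q2.trans (q3.le.trans q5)).trans hpow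
  · have hgr : ((g : ℝ) ^ 2) = 2 ^ (2 * (n + 36)) := by
      rw [hg, Nat.cast_pow, ← pow_mul, mul_comm (n + 36) 2]; rfl
    rw [hgr, hM]
    exact hnum
  · have h2 : (2 * 4 ^ n : ℝ) ^ M ≤ (2 ^ (2 * (n + 36))) ^ M := by
      clear hnum hpow
      exact pow_le_pow_left₀ (by positivity) (aux4 n) _
    rw [← hM] at hnum
    have h3 : 0 ≤ 2 * Real.sqrt (p : ℝ) := mul_nonneg zero_le_two (Real.sqrt_nonneg _)
    exact (aux2 (Nat.cast_nonneg (M * 4)) h3 h2).trans hnum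
  · clear hnum hpow
    have h1 : (1 / 3 : ℝ) ^ (90 * m) * (5 / 2) ^ M ≤ (1 / 2) ^ m := by
      rw [hM, pow_mul, pow_mul, ← mul_pow]
      exact pow_le_pow_left₀ (by positivity) (by norm_num) m
    exact aux h1 hp0
  · clear hnum hpow
    have h1 : (1 / 2 : ℝ) ^ (102 * m) * 2 ^ M ≤ (1 / 2) ^ m := by
      rw [hM, pow_mul, pow_mul, ← mul_pow]
      exact pow_le_pow_left₀ (by positivity) (by norm_num) m
    exact aux h1 hp0

end Pool.Agent.K7.H22.LW
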